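import Pool.Agent.Q184.BW.Lat

/-!
# The kissing configurations of all Barnes-Wall lattices are jammed

For every `k ≥ 1` the kissing configuration of the Barnes-Wall lattice of dimension `2 ^ k` is
jammed. The proof shows first order rigidity by induction on `k`, along the recursion
`L' = {(a, b) : a, b ∈ L, a - b ∈ (1 + i) L}`: the frames (classes of minimal vectors modulo
`(1 + i) L`) are acted on transitively by the group of automorphisms congruent to the identity, and
the linear maps attached to the frames by an infinitesimal motion agree by connectivity.
-/

set_option autoImplicit false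

namespace Pool.Agent.Results.MP_389516_gt.AllJammed

open Q184.BW

/-- For every `k ≥ 1`, the kissing configuration of the Barnes-Wall lattice in the real Euclidean
space of dimension `2 ^ k` is jammed. -/
theorem result : ∀ k : ℕ, 1 ≤ k → Module.finrank ℝ (Sp (k - 1)) = 2 ^ k ∧
    IsJammedCode (kissingConfiguration (barnesWall k)) := by
  intro k hk
  obtain ⟨d, rfl⟩ : ∃ d, k = d + 1 := ⟨k - 1, by omega⟩
  refine ⟨?_, jammed d⟩
  rw [Nat.add_sub_cancel, finrank_real_of_complex, finrank_euclideanSpace]
  simp [pow_succ, mul_comm]

end Pool.Agent.Results.MP_389516_gt.AllJammed
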